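import Mathlib
import Pool.Agent.H786Z.WH.Thomp

set_option autoImplicit false

open Pool.Agent.H786Z.WH

/-- Thompson's group F, with the word metric of any finite generating set, has infinite weak
hyperbolic dimension (for open balls and for closed balls). -/
theorem Pool.Agent.Results.MP_220364_al.AThompsonInfinite.result :
    ∀ (cl : Bool) (S : Finset ThompsonF), Subgroup.closure (S : Set ThompsonF) = ⊤ →
      wHyperdim cl (wordDist S) = ⊤ :=
  fun cl S hS => Pool.Agent.H786Z.WH.Thomp.main cl S hS
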